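import Pool.Agent.V5helper23.PF.Stm

/-! # Project PF: jobs ENX and INI -/

set_option autoImplicit false
set_option linter.all false

open MeasureTheory Set Real Filter Topology intervalIntegral
open scoped ENNReal NNReal

namespace Pool.Agent.V5helper29.PF

open Pool.Agent.Y308.BC Pool.Agent.V5helper93.NS Pool.Agent.V5helper23.PF

/-- Parseval for a sine series minus a function -/
lemma pars {α : ℕ → ℝ} (h : Summable fun n => |α n|) {f : ℝ → ℝ} (hf : MemLp f 2 mu) :
    ∫⁻ y in Ioo (0:ℝ) 1, ENNReal.ofReal ((ser α y - f y) ^ 2) =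
      ∑' k, ENNReal.ofReal ((α k - cf (es k) f) ^ 2) := by
  have hg : MemLp (fun y => ser α y - f y) 2 mu := (memLp_ser h).sub hf
  have h1 := hasSum_es hg
  have h2 : ∀ n, cf (es n) (fun y => ser α y - f y) = α n - cf (es n) f := by
    intro n
    rw [cf_sub (es_cont n) (memLp_ser h) hf, ser_cf h]
  simp_rw [h2] at h1
  rw [← ofReal_integral_eq_lintegral_ofReal hg.integrable_sq (Eventually.of_forall fun y => sq_nonneg _),
    ioo_int, ← h1.tsum_eq, ENNReal.ofReal_tsum_of_nonneg (fun n => sq_nonneg _) h1.summable]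

lemma cf_zero' (φ : ℝ → ℝ) : cf φ (fun _ => 0) = 0 := by
  unfold cf; simp

lemma pars0 {α : ℕ → ℝ} (h : Summable fun n => |α n|) :
    ∫⁻ y in Ioo (0:ℝ) 1, ENNReal.ofReal ((ser α y) ^ 2) = ∑' k, ENNReal.ofReal ((α k) ^ 2) := by
  have h1 := pars h (f := fun _ => 0) (memLp_cont continuousOn_const)
  simp only [sub_zero, cf_zero'] at h1
  exact h1

lemma sum_coef {b : ℝ} (hb : 0 < b) {t : ℝ} (ht : 0 < t) {M : ℝ} {f : ℕ → ℝ} (hf : ∀ k, |f k| ≤ M) :
    Summable fun k => |f k * Real.exp (-(lam k) * (b * t))| := by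
  refine Summable.of_nonneg_of_le (fun _ => abs_nonneg _) (fun k => ?_)
    ((exp_lam_summable (mul_pos hb ht)).mul_left M)
  rw [abs_mul, abs_of_pos (Real.exp_pos _)]
  exact mul_le_mul_of_nonneg_right (hf k) (Real.exp_pos _).le

lemma Vx_ser (a b σ : ℝ) (c : ℕ → ℝ → ℝ) (t x y : ℝ) :
    Vx a b σ c t x y = ser (fun k => wx (c k) σ (a * t) x * Real.exp (-(lam k) * (b * t))) y := by
  unfold Vx ser
  congr 1; funext k; ring

lemma V_ser (a b σ : ℝ) (c : ℕ → ℝ → ℝ) (t x y : ℝ) :
    V a b σ c t x y = ser (fun k => w (c k) σ (a * t) x * Real.exp (-(lam k) * (b * t))) y := by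
  unfold V ser
  congr 1; funext k; ring

lemma exp_le_one' {b t : ℝ} (hb : 0 < b) (ht : 0 < t) (k : ℕ) : Real.exp (-(lam k) * (b * t)) ≤ 1 := by
  rw [Real.exp_le_one_iff]
  have := lam_pos k
  have := mul_pos hb ht
  nlinarith

/-- the time integral of the energy of one mode -/
lemma mode_energy {c : ℝ → ℝ} (hcM : MemLp c 2 mu) {σ a : ℝ} (hσ : 0 < σ) (ha : 0 < a) :
    ∫⁻ t in Ioc 0 (σ / a), ENNReal.ofReal (∫ x in (0:ℝ)..1, wx c σ (a * t) x ^ 2) ≤
      ENNReal.ofReal (1 / a * ∫ x in (0:ℝ)..1, c x ^ 2) := by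
  have h1 : ∫⁻ t in Ioc 0 (σ / a), ENNReal.ofReal (∫ x in (0:ℝ)..1, wx c σ (a * t) x ^ 2) =
      ∫⁻ t in Ioc 0 (σ / a), ∑' n, ENNReal.ofReal (lam n * (Real.exp (-(lam n) * (a * t)) * cf (es n) c) ^ 2) := by
    refine setLIntegral_congr_fun measurableSet_Ioc fun t ht => ?_
    have hat : a * t ≤ σ := by
      have := ht.2
      rw [le_div_iff₀ ha] at this
      linarith
    have h2 := wx_sq hcM hσ (mul_pos ha ht.1) hat
    show ENNReal.ofReal _ = _
    rw [← h2.tsum_eq, ENNReal.ofReal_tsum_of_nonneg (fun n => ?_) h2.summable]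
    have := lam_pos n
    positivity
  rw [h1, lintegral_tsum (fun n => by
    apply Measurable.aemeasurable
    apply ENNReal.measurable_ofReal.comp
    fun_prop)]
  have h3 : ∀ n, ∫⁻ t in Ioc 0 (σ / a), ENNReal.ofReal (lam n * (Real.exp (-(lam n) * (a * t)) *
      cf (es n) c) ^ 2) ≤ ENNReal.ofReal (1 / a * cf (es n) c ^ 2) := by
    intro n
    have hl := lam_pos n
    rw [← ofReal_integral_eq_lintegral_ofReal]
    · apply ENNReal.ofReal_le_ofReal
      rw [← intervalIntegral.integral_of_le (div_pos hσ ha).le]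
      have h4 := g_int (lam n * a) (cf (es n) c) (σ / a) (div_pos hσ ha).le
      have h5 : ∀ t : ℝ, lam n * (Real.exp (-(lam n) * (a * t)) * cf (es n) c) ^ 2 =
          1 / a * (lam n * a * (Real.exp (-(lam n * a) * t) * cf (es n) c) ^ 2) := by
        intro t
        have e1 : -(lam n) * (a * t) = -(lam n * a) * t := by ring
        rw [e1]; field_simp
      simp_rw [h5]
      rw [intervalIntegral.integral_const_mul]
      exact mul_le_mul_of_nonneg_left h4 (by positivity)
    · have : Continuous fun t : ℝ => lam n * (Real.exp (-(lam n) * (a * t)) * cf (es n) c) ^ 2 := by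
        fun_prop
      exact this.integrableOn_Ioc
    · exact Eventually.of_forall fun t => by positivity
  refine (ENNReal.tsum_le_tsum h3).trans (le_of_eq ?_)
  have hs := hasSum_es hcM
  rw [← ENNReal.ofReal_tsum_of_nonneg (fun n => by positivity) (hs.summable.mul_left _), tsum_mul_left,
    hs.tsum_eq]

/-- Job ENX. -/
theorem t_ENX (h1 : S_COE) (h2 : S_BND) (h3 : S_CON) : S_ENX := by
  intro a b σ T F ha hb hσ hF
  obtain ⟨hC, -, hsum, m, hm⟩ := h1.1 F hF
  obtain ⟨hm0, hmb⟩ := id hm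
  have hcont := (h3 a b σ m (cy F) ha hb hσ hm).2.1
  set s1 := σ / a with hs1
  have hs1p : 0 < s1 := div_pos hσ ha
  -- early times
  have hE : IntegrableOn (fun q : ℝ × ℝ × ℝ => Vx a b σ (cy F) q.1 q.2.1 q.2.2 ^ 2) (Ioc 0 s1 ×ˢ sq) := by
    have hc2 : ContinuousOn (fun q : ℝ × ℝ × ℝ => Vx a b σ (cy F) q.1 q.2.1 q.2.2 ^ 2) (Ioc 0 s1 ×ˢ sq) :=
      (hcont.pow 2).mono (prod_mono Ioc_subset_Ioi_self (prod_mono Ioo_subset_Icc_self Ioo_subset_Icc_self))
    have hsqm : MeasurableSet sq := measurableSet_Ioo.prod measurableSet_Ioo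
    have hmeas := hc2.aestronglyMeasurable (μ := volume) (measurableSet_Ioc.prod hsqm)
    refine ⟨hmeas, ?_⟩
    rw [hasFiniteIntegral_iff_ofReal (Eventually.of_forall fun q => sq_nonneg _)]
    have hme : AEMeasurable (fun q : ℝ × ℝ × ℝ => ENNReal.ofReal (Vx a b σ (cy F) q.1 q.2.1 q.2.2 ^ 2))
        ((volume.restrict (Ioc 0 s1)).prod (volume.restrict sq)) := by
      rw [Measure.prod_restrict]
      exact hmeas.aemeasurable.ennreal_ofReal
    have e1 : (volume : Measure (ℝ × ℝ × ℝ)).restrict (Ioc 0 s1 ×ˢ sq) =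
        (volume.restrict (Ioc 0 s1)).prod (volume.restrict sq) := by
      rw [Measure.prod_restrict]; rfl
    rw [e1, lintegral_prod _ hme]
    -- the slices
    have hslice : ∀ t ∈ Ioc 0 s1, ∫⁻ p in sq, ENNReal.ofReal (Vx a b σ (cy F) t p.1 p.2 ^ 2) ≤
        ∑' k, ENNReal.ofReal (∫ x in (0:ℝ)..1, wx (cy F k) σ (a * t) x ^ 2) := by
      intro t ht
      have ht0 : 0 < t := ht.1
      have hat : 0 < a * t := mul_pos ha ht0
      obtain ⟨K, hK0, hK⟩ := h2 σ (a * t) hσ hat
      have e2 : (volume : Measure (ℝ × ℝ)).restrict sq = mu.prod mu := by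
        rw [Measure.prod_restrict]; rfl
      have hsl : ContinuousOn (fun p : ℝ × ℝ => Vx a b σ (cy F) t p.1 p.2 ^ 2) sq :=
        (hcont.pow 2).comp (f := fun p : ℝ × ℝ => (t, p)) (by fun_prop)
          (fun p hp => ⟨ht0, Ioo_subset_Icc_self hp.1, Ioo_subset_Icc_self hp.2⟩)
      have hme2 : AEMeasurable (fun p : ℝ × ℝ => ENNReal.ofReal (Vx a b σ (cy F) t p.1 p.2 ^ 2)) (mu.prod mu) := by
        rw [← e2]
        exact (hsl.aestronglyMeasurable hsqm).aemeasurable.ennreal_ofReal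
      rw [e2, lintegral_prod _ hme2]
      have h4 : ∀ x ∈ Ioo (0:ℝ) 1, ∫⁻ y, ENNReal.ofReal (Vx a b σ (cy F) t x y ^ 2) ∂mu =
          ∑' k, ENNReal.ofReal ((wx (cy F k) σ (a * t) x * Real.exp (-(lam k) * (b * t))) ^ 2) := by
        intro x hx
        have hsm : Summable fun k => |wx (cy F k) σ (a * t) x * Real.exp (-(lam k) * (b * t))| := by
          refine sum_coef hb ht0 (M := K * m) fun k => ?_
          exact (hK (cy F k) m hm0 (hmb k) (a * t) x le_rfl (by
            rw [abs_of_pos hx.1]; linarith [hx.2])).2.1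
        rw [← pars0 hsm]
        refine lintegral_congr fun y => ?_
        rw [Vx_ser]
      have h5 : ∫⁻ x, ∫⁻ y, ENNReal.ofReal (Vx a b σ (cy F) t x y ^ 2) ∂mu ∂mu =
          ∫⁻ x, ∑' k, ENNReal.ofReal ((wx (cy F k) σ (a * t) x * Real.exp (-(lam k) * (b * t))) ^ 2) ∂mu :=
        setLIntegral_congr_fun measurableSet_Ioo h4
      rw [h5]
      have hwxm : ∀ k, ContinuousOn (wx (cy F k) σ (a * t)) (Icc 0 1) := fun k => wx_slice (hC k) hσ hat
      rw [lintegral_tsum]
      · refine ENNReal.tsum_le_tsum fun k => ?_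
        have hint : Integrable (fun x => wx (cy F k) σ (a * t) x ^ 2) mu :=
          ((hwxm k).pow 2).integrableOn_compact isCompact_Icc |>.mono_set Ioo_subset_Icc_self
        rw [← ioo_int, ofReal_integral_eq_lintegral_ofReal hint (Eventually.of_forall fun x => sq_nonneg _)]
        refine lintegral_mono fun x => ENNReal.ofReal_le_ofReal ?_
        rw [mul_pow]
        have h6 := exp_le_one' hb ht0 k
        have h7 := Real.exp_pos (-(lam k) * (b * t))
        have h8 : Real.exp (-(lam k) * (b * t)) ^ 2 ≤ 1 := by nlinarith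
        exact mul_le_of_le_one_right (sq_nonneg _) h8
      · intro k
        have : ContinuousOn (fun x => (wx (cy F k) σ (a * t) x * Real.exp (-(lam k) * (b * t))) ^ 2) (Ioo 0 1) :=
          (((hwxm k).mul continuousOn_const).pow 2).mono Ioo_subset_Icc_self
        exact (this.aestronglyMeasurable measurableSet_Ioo).aemeasurable.ennreal_ofReal
    refine (setLIntegral_mono' measurableSet_Ioc hslice).trans_lt ?_
    rw [lintegral_tsum]
    · refine (ENNReal.tsum_le_tsum fun k => mode_energy (hC k) hσ ha).trans_lt ?_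
      rw [← ENNReal.ofReal_tsum_of_nonneg (fun k => ?_) (hsum.mul_left _)]
      · exact ENNReal.ofReal_lt_top
      · have : 0 ≤ ∫ x in (0:ℝ)..1, cy F k x ^ 2 :=
          intervalIntegral.integral_nonneg zero_le_one fun x _ => sq_nonneg _
        positivity
    · intro k
      have h6 : ContinuousOn (fun t => ∫ x in (0:ℝ)..1, wx (cy F k) σ (a * t) x ^ 2) (Ioc 0 s1) :=
        (D_cont (hC k) hσ).comp (f := fun t => a * t) (by fun_prop) (fun t ht => mul_pos ha ht.1)
      exact (h6.aestronglyMeasurable measurableSet_Ioc).aemeasurable.ennreal_ofReal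
  -- late times
  have hL : IntegrableOn (fun q : ℝ × ℝ × ℝ => Vx a b σ (cy F) q.1 q.2.1 q.2.2 ^ 2)
      (Icc s1 T ×ˢ (Icc (0:ℝ) 1 ×ˢ Icc (0:ℝ) 1)) := by
    refine ContinuousOn.integrableOn_compact (isCompact_Icc.prod (isCompact_Icc.prod isCompact_Icc)) ?_
    exact (hcont.pow 2).mono (prod_mono (fun t ht => hs1p.trans_le ht.1) le_rfl)
  refine (hE.union hL).mono_set ?_
  rintro ⟨t, x, y⟩ ⟨ht, hx, hy⟩
  rcases le_total t s1 with h | h
  · exact Or.inl ⟨⟨ht.1, h⟩, hx, hy⟩
  · exact Or.inr ⟨⟨h, ht.2.le⟩, Ioo_subset_Icc_self hx, Ioo_subset_Icc_self hy⟩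

end Pool.Agent.V5helper29.PF
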