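import Pool.Agent.V5helper29.PF.ENX

/-! # Project PF: job INI -/

set_option autoImplicit false
set_option linter.all false

open MeasureTheory Set Real Filter Topology intervalIntegral
open scoped ENNReal NNReal

namespace Pool.Agent.V5helper29.PF

open Pool.Agent.Y308.BC Pool.Agent.V5helper93.NS Pool.Agent.V5helper23.PF

/-- the distance of one mode to its initial value -/
noncomputable def TT (a b σ : ℝ) (c : ℝ → ℝ) (k : ℕ) (t : ℝ) : ℝ :=
  ∫ x in (0:ℝ)..1, (w c σ (a * t) x * Real.exp (-(lam k) * (b * t)) - c x) ^ 2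

lemma TT_nonneg (a b σ : ℝ) (c : ℝ → ℝ) (k : ℕ) (t : ℝ) : 0 ≤ TT a b σ c k t :=
  intervalIntegral.integral_nonneg zero_le_one fun x _ => sq_nonneg _

lemma mem_we {a b σ : ℝ} (hσ : 0 < σ) (ha : 0 < a) {c : ℝ → ℝ} (hc : MemLp c 2 mu) (k : ℕ) {t : ℝ} (ht : 0 < t) :
    MemLp (fun x => w c σ (a * t) x * Real.exp (-(lam k) * (b * t)) - c x) 2 mu :=
  (memLp_cont ((w_slice hc hσ (mul_pos ha ht)).mul continuousOn_const)).sub hc

lemma TT_le (h1 : S_COE) {a b σ : ℝ} (ha : 0 < a) (hb : 0 < b) (hσ : 0 < σ) {c : ℝ → ℝ} (hc : MemLp c 2 mu)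
    (k : ℕ) {t : ℝ} (ht : 0 < t) (hts : a * t ≤ σ) : TT a b σ c k t ≤ 4 * ∫ x in (0:ℝ)..1, c x ^ 2 := by
  have hat := mul_pos ha ht
  have h2 := h1.2 c σ (a * t) hc hat hts
  have i1 := ii_sq (mem_we (b := b) hσ ha hc k ht)
  have hwm : MemLp (w c σ (a * t)) 2 mu := memLp_cont (w_slice hc hσ hat)
  have i2 := (ii_sq hwm).const_mul 2
  have i3 := (ii_sq hc).const_mul 2
  have h3 : TT a b σ c k t ≤ ∫ x in (0:ℝ)..1, (2 * w c σ (a * t) x ^ 2 + 2 * c x ^ 2) := by
    unfold TT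
    refine intervalIntegral.integral_mono_on zero_le_one i1 (i2.add i3) fun x _ => ?_
    have e1 := exp_le_one' hb ht k
    have e2 := Real.exp_pos (-(lam k) * (b * t))
    set E := Real.exp (-(lam k) * (b * t))
    have e3 : E ^ 2 ≤ 1 := by nlinarith
    have e4 : (w c σ (a * t) x * E) ^ 2 ≤ w c σ (a * t) x ^ 2 := by
      rw [mul_pow]; exact mul_le_of_le_one_right (sq_nonneg _) e3
    nlinarith [sq_nonneg (w c σ (a * t) x * E + c x)]
  rw [intervalIntegral.integral_add i2 i3, intervalIntegral.integral_const_mul,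
    intervalIntegral.integral_const_mul] at h3
  linarith

lemma TT_tendsto {a b σ : ℝ} (ha : 0 < a) (hb : 0 < b) (hσ : 0 < σ) {c : ℝ → ℝ} (hc : MemLp c 2 mu)
    (k : ℕ) : Tendsto (fun t => TT a b σ c k t) (𝓝[>] 0) (𝓝 0) := by
  have h1 : Tendsto (fun t => ∫ x in (0:ℝ)..1, (w c σ (a * t) x - c x) ^ 2) (𝓝[>] 0) (𝓝 0) := by
    have h2 := w_init hσ hc
    refine h2.comp (tendsto_nhdsWithin_iff.2 ⟨?_, ?_⟩)
    · have h3 : Continuous fun t : ℝ => a * t := by fun_prop
      have h4 := (h3.tendsto 0).mono_left (nhdsWithin_le_nhds (s := Ioi (0:ℝ)))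
      simpa using h4
    · filter_upwards [self_mem_nhdsWithin] with t ht
      exact mul_pos ha ht
  have h2 : Tendsto (fun t : ℝ => 2 * (1 - Real.exp (-(lam k) * (b * t))) ^ 2 * ∫ x in (0:ℝ)..1, c x ^ 2)
      (𝓝[>] 0) (𝓝 0) := by
    have h3 : Continuous fun t : ℝ => 2 * (1 - Real.exp (-(lam k) * (b * t))) ^ 2 * ∫ x in (0:ℝ)..1, c x ^ 2 := by
      fun_prop
    have h4 := (h3.tendsto 0).mono_left (nhdsWithin_le_nhds (s := Ioi (0:ℝ)))
    simpa using h4
  have h3 := (h1.const_mul 2).add h2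
  rw [mul_zero, zero_add] at h3
  refine squeeze_zero' (Eventually.of_forall fun t => TT_nonneg a b σ c k t) ?_ h3
  filter_upwards [self_mem_nhdsWithin] with t ht
  have ht' : (0:ℝ) < t := ht
  have hat := mul_pos ha ht'
  have i1 := ii_sq (mem_we (b := b) hσ ha hc k ht')
  have hwm : MemLp (fun x => w c σ (a * t) x - c x) 2 mu := (memLp_cont (w_slice hc hσ hat)).sub hc
  have i2 := (ii_sq hwm).const_mul 2
  have e1 := exp_le_one' hb ht' k
  have e2 := Real.exp_pos (-(lam k) * (b * t))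
  set E := Real.exp (-(lam k) * (b * t)) with hE
  have i3 := (ii_sq hc).const_mul (2 * (1 - E) ^ 2)
  have h5 : TT a b σ c k t ≤ ∫ x in (0:ℝ)..1, (2 * (w c σ (a * t) x - c x) ^ 2 + 2 * (1 - E) ^ 2 * c x ^ 2) := by
    unfold TT
    refine intervalIntegral.integral_mono_on zero_le_one i1 (i2.add i3) fun x _ => ?_
    rw [← hE]
    have e3 : E ^ 2 ≤ 1 := by nlinarith
    have e4 : (E * (w c σ (a * t) x - c x)) ^ 2 ≤ (w c σ (a * t) x - c x) ^ 2 := by
      rw [mul_pow]; exact mul_le_of_le_one_left (sq_nonneg _) e3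
    have e5 : w c σ (a * t) x * E - c x = E * (w c σ (a * t) x - c x) - (1 - E) * c x := by ring
    rw [e5]
    nlinarith [sq_nonneg (E * (w c σ (a * t) x - c x) + (1 - E) * c x)]
  rw [intervalIntegral.integral_add i2 i3, intervalIntegral.integral_const_mul,
    intervalIntegral.integral_const_mul] at h5
  exact h5

/-- Job INI. -/
theorem t_INI (h1 : S_COE) (h2 : S_BND) (h3 : S_CON) : S_INI := by
  intro a b σ F ha hb hσ hF
  obtain ⟨hC, hFae, hsum, m, hm⟩ := h1.1 F hF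
  obtain ⟨hm0, hmb⟩ := id hm
  have hcont := (h3 a b σ m (cy F) ha hb hσ hm).1
  set s1 := σ / a with hs1
  have hs1p : 0 < s1 := div_pos hσ ha
  have hle : ∀ t ∈ Ioc 0 s1, a * t ≤ σ := by
    intro t ht
    have := ht.2
    rw [hs1, le_div_iff₀ ha] at this
    linarith
  have hcn : ∀ k, 0 ≤ ∫ x in (0:ℝ)..1, cy F k x ^ 2 := fun k =>
    intervalIntegral.integral_nonneg zero_le_one fun x _ => sq_nonneg _
  have hsT : ∀ t ∈ Ioc 0 s1, Summable fun k => TT a b σ (cy F k) k t := fun t ht =>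
    Summable.of_nonneg_of_le (fun k => TT_nonneg _ _ _ _ _ _)
      (fun k => TT_le h1 ha hb hσ (hC k) k ht.1 (hle t ht)) (hsum.mul_left 4)
  have key : ∀ t ∈ Ioc 0 s1, ∫⁻ p in sq, ENNReal.ofReal ((V a b σ (cy F) t p.1 p.2 - F p) ^ 2) =
      ENNReal.ofReal (∑' k, TT a b σ (cy F k) k t) := by
    intro t ht
    have ht0 : 0 < t := ht.1
    have hat : 0 < a * t := mul_pos ha ht0
    obtain ⟨K, hK0, hK⟩ := h2 σ (a * t) hσ hat
    have hsqm : MeasurableSet sq := measurableSet_Ioo.prod measurableSet_Ioo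
    have e2 : (volume : Measure (ℝ × ℝ)).restrict sq = mu.prod mu := by
      rw [Measure.prod_restrict]; rfl
    have hsl : ContinuousOn (fun p : ℝ × ℝ => V a b σ (cy F) t p.1 p.2) sq :=
      hcont.comp (f := fun p : ℝ × ℝ => (t, p)) (by fun_prop)
        (fun p hp => ⟨ht0, Ioo_subset_Icc_self hp.1, Ioo_subset_Icc_self hp.2⟩)
    have hme2 : AEMeasurable (fun p : ℝ × ℝ => ENNReal.ofReal ((V a b σ (cy F) t p.1 p.2 - F p) ^ 2))
        (mu.prod mu) := by
      rw [← e2]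
      exact (((hsl.aestronglyMeasurable hsqm).sub hF.1).pow 2).aemeasurable.ennreal_ofReal
    rw [e2, lintegral_prod _ hme2]
    have h4 : ∀ᵐ x ∂mu, ∫⁻ y, ENNReal.ofReal ((V a b σ (cy F) t x y - F (x, y)) ^ 2) ∂mu =
        ∑' k, ENNReal.ofReal ((w (cy F k) σ (a * t) x * Real.exp (-(lam k) * (b * t)) - cy F k x) ^ 2) := by
      filter_upwards [hFae, ae_restrict_mem measurableSet_Ioo] with x hx hx2
      have hsm : Summable fun k => |w (cy F k) σ (a * t) x * Real.exp (-(lam k) * (b * t))| := by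
        refine sum_coef hb ht0 (M := K * m) fun k => ?_
        exact (hK (cy F k) m hm0 (hmb k) (a * t) x le_rfl (by
          rw [abs_of_pos hx2.1]; linarith [hx2.2])).1
      have h6 := pars hsm hx
      refine Eq.trans ?_ h6
      refine lintegral_congr fun y => ?_
      rw [V_ser]
    rw [lintegral_congr_ae h4, lintegral_tsum]
    · rw [ENNReal.ofReal_tsum_of_nonneg (fun k => TT_nonneg _ _ _ _ _ _) (hsT t ht)]
      congr 1; funext k
      unfold TT
      rw [← ioo_int, ofReal_integral_eq_lintegral_ofReal (mem_we hσ ha (hC k) k ht0).integrable_sq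
        (Eventually.of_forall fun x => sq_nonneg _)]
    · intro k
      exact ((mem_we (b := b) hσ ha (hC k) k ht0).1.pow 2).aemeasurable.ennreal_ofReal
  have hlim : Tendsto (fun t => ∑' k, TT a b σ (cy F k) k t) (𝓝[>] 0) (𝓝 (∑' _ : ℕ, (0:ℝ))) := by
    refine tendsto_tsum_of_dominated_convergence (bound := fun k => 4 * ∫ x in (0:ℝ)..1, cy F k x ^ 2)
      (hsum.mul_left 4) (fun k => TT_tendsto ha hb hσ (hC k) k) ?_
    filter_upwards [Ioc_mem_nhdsGT hs1p] with t ht k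
    rw [Real.norm_eq_abs, abs_of_nonneg (TT_nonneg _ _ _ _ _ _)]
    exact TT_le h1 ha hb hσ (hC k) k ht.1 (hle t ht)
  rw [tsum_zero] at hlim
  have hlim2 := (ENNReal.continuous_ofReal.tendsto 0).comp hlim
  rw [ENNReal.ofReal_zero] at hlim2
  refine hlim2.congr' ?_
  filter_upwards [Ioc_mem_nhdsGT hs1p] with t ht
  exact (key t ht).symm

end Pool.Agent.V5helper29.PF
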